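import Pool.Agent.K7.H58.EG.Final

/-!
# The edge of absolute convergence for all L-functions of `GSp(2n)`: continuation or transcendence

Q1 asks for the continuation of `L_S(s, π, ρ)` beyond its half-plane of convergence.  The first step is a
continuation across a point of the edge of this half-plane, which is not known in general.  Let `π` be a
representation of `GSp_{2n}` and let `θ(ρ)` be such that the eigenvalues of `ρ(A_p)` are bounded by `p^{θ(ρ)}` for
`p ∉ S₀` (`θ = 0` if `π` is tempered and unitary), so that `L_S(s, π, ρ)` converges for `Re s > 1 + θ(ρ)`.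

* There is a set `Z` of real numbers of Hausdorff dimension `0`, which depends only on `π`, such that for all
  `τ ∉ Z`, all `ρ` and all `S ⊇ S₀` the Euler product converges at `1 + θ(ρ) + iτ`, to a number `l ≠ 0`, which is
  the limit of `L_S(s, π, ρ)` in every angle.
* **Continuation or transcendence.**  For every countable set `A` of functions, for almost all `τ`, for all
  `ρ` and `S`: either `L_S(s, π, ρ)` continues holomorphically to a neighbourhood of `1 + θ(ρ) + iτ`, or its
  boundary value `l` at this point is transcendental over the field generated over `ℚ` by the values at this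
  point of all functions in `A` analytic there.  So an algebraic relation between `l` and the values of
  any known functions, on a set of `τ` of positive measure, forces the continuation.
* If the twists of `L_S(s, π, ρ)` by the quadratic characters `(D/·)`, `D` squarefree, continue meromorphically to
  neighbourhoods of points `1 + θ(ρ) + iτ`, for a finite set of pairs `(D, τ)`, then the sum of the squares
  of the orders at these points is at most `(deg ρ)²`.
* If the boundary values of `L_S(s, π, ρ)` and `L_{S'}(s, π', ρ')` agree on a set of positive measure, then the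
  Euler factors of these functions are equal at all primes.

No continuation and no functional equation is used or assumed.  The definitions are in
`Pool.Agent.K7.H58.EP.Defs` and `Pool.Agent.K7.H58.EG.Defs`.

Proof.  On the edge `log L` is `∑_p tr ρ(A_p) p^{-s}` up to an absolutely convergent series; the sum converges off a
set of dimension `0`, and its exponentials satisfy local Hardy space bounds up to the edge, so the uniqueness of
boundary values holds on sets of positive measure (starting library `TH339.MP`, `TH345.ET`, `W350`).  The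
squares of the orders come from Bessel's inequality for the functions `(D/p) p^{iτ}` (`H341R2`).
-/

set_option autoImplicit false

namespace Pool.Agent.Results.MP_eea520_nt.EdgeDichotomy

open Filter Topology MeasureTheory
open Pool.Agent.K7.H58.EP Pool.Agent.K7.H58.EG

open Classical in
/-- **The L-functions of `GSp(2n)` at the edge.** -/
theorem result {n : ℕ} (b : GSpData n) (S₀ : Finset Nat.Primes) (θ : GSpinRep n → ℝ)
    (hθ : ∀ ρ : GSpinRep n, ∀ p ∉ S₀, ∀ l ∈ ρ.mult.support, ‖eig b l p‖ ≤ ((p : ℕ) : ℝ) ^ θ ρ) :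
    (∃ Z : Set ℝ, dimH Z = 0 ∧ ∀ τ ∉ Z, ∀ (ρ : GSpinRep n) (S : Finset Nat.Primes), S₀ ⊆ S → ∃ l : ℂ, l ≠ 0 ∧
      Tendsto (fun X : ℕ => ∏ p ∈ (primesUpTo X) \ S, factor b ρ.mult (edge (θ ρ) τ) p) atTop (𝓝 l) ∧
      ∀ C : ℝ, Tendsto (LGSp S b ρ) (𝓝[angle (θ ρ) τ C] (edge (θ ρ) τ)) (𝓝 l)) ∧
    (∀ A : Set (ℂ → ℂ), A.Countable → ∀ᵐ τ : ℝ, ∀ (ρ : GSpinRep n) (S : Finset Nat.Primes), S₀ ⊆ S →
      ContinuesAcross (LGSp S b ρ) (θ ρ) τ ∨
      ∃ l : ℂ, (∀ C : ℝ, Tendsto (LGSp S b ρ) (𝓝[angle (θ ρ) τ C] (edge (θ ρ) τ)) (𝓝 l)) ∧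
        Transcendental (IntermediateField.adjoin ℚ (values A (edge (θ ρ) τ))) l) ∧
    (∀ (ρ : GSpinRep n) (S : Finset Nat.Primes), S₀ ⊆ S → ∀ K : Finset (ℤ × ℝ), (∀ k ∈ K, Squarefree k.1) →
      ∀ Λ : ℤ × ℝ → ℂ → ℂ, (∀ k ∈ K, MeromorphicAt (Λ k) (edge (θ ρ) k.2) ∧
        ∀ᶠ s in 𝓝 (edge (θ ρ) k.2), 1 + θ ρ < s.re → Λ k s = LTwist S b ρ.mult k.1 s) →
      ∃ m : ℤ × ℝ → ℤ, (∀ k ∈ K, meromorphicOrderAt (Λ k) (edge (θ ρ) k.2) = m k) ∧
        ∑ k ∈ K, (m k) ^ 2 ≤ (degree ρ.mult : ℤ) ^ 2) ∧
    (∀ (ρ : GSpinRep n) (S : Finset Nat.Primes), S₀ ⊆ S → ∀ (n' : ℕ) (b' : GSpData n') (ρ' : GSpinRep n')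
      (S' : Finset Nat.Primes), (∀ p ∉ S', ∀ l ∈ ρ'.mult.support, ‖eig b' l p‖ ≤ ((p : ℕ) : ℝ) ^ θ ρ) →
      volume {τ : ℝ | ∃ l : ℂ, Tendsto (LGSp S b ρ) (𝓝[angle (θ ρ) τ 1] (edge (θ ρ) τ)) (𝓝 l) ∧
        Tendsto (LGSp S' b' ρ') (𝓝[angle (θ ρ) τ 1] (edge (θ ρ) τ)) (𝓝 l)} ≠ 0 →
      ∀ (p : Nat.Primes) (s : ℂ), 1 + θ ρ ≤ s.re →
        (if p ∈ S then 1 else factor b ρ.mult s p) = if p ∈ S' then 1 else factor b' ρ'.mult s p) :=
  ⟨part_one hθ, fun _ hA => part_two hθ hA,
    fun ρ _ hS K hK Λ hΛ => sum_sq (mono_hyp (hθ ρ) hS) K hK Λ hΛ,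
    fun ρ _ hS _ _ _ _ h' hZ p s hs => by
      have h1 := part_four (mono_hyp (hθ ρ) hS) h' hZ p s hs
      convert h1⟩

end Pool.Agent.Results.MP_eea520_nt.EdgeDichotomy
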