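import Pool.Agent.K7.H65.EP.Multi

/-!
# Finitely many unitary twists decide Q1 in the Eisenstein families

Q1 asks for the meromorphic continuation of `L_S(s, π, ρ)` for all automorphic `π` on `GSp_{2N}` and all
finite-dimensional representations `ρ` of `GSpin_{2N+1}(ℂ)`.  By Langlands every automorphic `π` is a constituent of
a representation induced from `σ₁ |det|^{w₁} ⊗ ⋯ ⊗ σ_k |det|^{w_k} ⊗ π₀` on a standard Levi subgroup
`GL_{n₁} × ⋯ × GL_{n_k} × GSp_{2m}`.  Let `w ∈ ℂ^k` vary in such a family.

**Theorem (unconditional).**  Let the weights of `ρ` have degrees in an interval of `d_j` integers for the centre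
of `GL_{n_j}(ℂ)` (`d_j = n_j + 1` for the spin representation).  If `L_S(s, Ind(w), ρ)` continues for the
`∏_j (d_j + 2 choose 3)` points
`w_j = z_j + i a_j (p_j + q_j √2 + r_j √3)`, `p_j, q_j, r_j ≥ 0` integers, `p_j + q_j + r_j < d_j`,
then it continues for all `w ∈ ℂ^k`, and so does every part of fixed multidegree, that is, every L-function of the
Levi subgroup that is a factor of `L_S(s, Ind(w), ρ)`.  Here `z_j ∈ ℂ` and `a_j > 0` are arbitrary; with `Re z_j = 0`
all the twists are unitary.  So if Q1 fails for `ρ` at one, possibly highly non-unitary, point of the family, it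
fails for every such finite set at one of its unitary points.

The points lie on one vertical line, so that the method of moving the abscissa of meromorphy does not apply: if
`x - T^{it} x` is good (`x` a virtual Euler product, `T^{w}` the shift `s ↦ s + w`, good: it continues), nothing moves
to the left.  The main lemma is: *if `x - T^{iau} x` is good for `u = 1, √2, √3` then `x` is good.*

Proof of the lemma, `a = 1`.  Let `x = exp λ(s)`, `λ` analytic for `Re s > c`.
* *Divisors.* Let `o_t` be the divisor of the continuation `F_t` of `exp (λ(s) - λ(s + it))`, `t ∈ ℤ + ℤ√2 + ℤ√3`; it is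
  a cocycle: `o_{t+u}(s) = o_t(s) + o_u(s + it)`.  For fixed `s` the function `(q, r) ↦ o_{θ(q,r)}(s)`, `θ(q, r)` the
  fractional part of `q√2 + r√3`, changes only finitely often between neighbours, since `θ` is injective and bounded.
  The complement of a finite set in the grid `ℤ²` is connected, so there is a limit `W(s)`, and `W(s) - W(s + it) =
  o_t(s)`.  One shows that `W` is a divisor (locally finite).  Here three frequencies are needed: with `1, √2` only, the
  limits at the two ends of `ℤ` may differ, and the zeros may be dense on a line.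
* *Small divisors.*  Locally one divides by a rational function with divisor `W` and takes logarithmic derivatives;
  one has `h(s) - h(s + i)`, `h(s) - h(s + i√2)` analytic on a large disc, `h` analytic for `Re s > c`.  The numbers
  `δ^k`, `δ = √2 - 1`, are integral combinations of `1, √2` of size `δ^{-k}`, so the `n`-th Taylor coefficient of `h`
  on a vertical segment changes by `O(δ^{-K} ρ^{-n} + δ^K r^{-n})` only (`ρ` the large, `r` the small radius).  With
  `K` proportional to `n` this beats every radius of convergence, `h` extends to every disc, and the local pieces are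
  glued.
By differences in the three directions of the grid the lemma isolates the parts of each degree.

The definitions of automorphic systems and L-functions are in `Pool.Agent.K7.H58.EP.Defs`, those of the induced
families in `Pool.Agent.K7.H65.EP.Levi`.
-/

set_option autoImplicit false

namespace Pool.Agent.Results.MP_eea520_nt.FiniteUnitaryTwists

open Pool.Agent.K7.H58.EP Pool.Agent.K7.H65.EP

/-- **Finitely many unitary twists decide the continuation in the Eisenstein families.** -/
theorem result (A : AutomorphicSystem) (k : ℕ) (n : Fin k → ℕ) (m : ℕ) (α : ∀ j, GLData (n j)) (b : GSpData m)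
    (hα : ∀ j, α j ∈ A.gl (n j)) (hb : b ∈ A.gsp m) :
    (∃ (N : ℕ) (e : (Σ j, Fin (n j)) ⊕ Fin m ≃ Fin N), ∀ w : Fin k → ℂ, leviInd e α b w ∈ A.gsp N) ∧
    ∀ (N : ℕ) (e : (Σ j, Fin (n j)) ⊕ Fin m ≃ Fin N) (ρ : GSpinRep N) (S : Finset Nat.Primes)
      (d : Fin k → ℕ) (c : Fin k → ℤ),
      (∀ l ∈ ρ.mult.support, ∀ j, c j ≤ leviDeg e l j ∧ leviDeg e l j < c j + d j) →
      ∀ (z : Fin k → ℂ) (a : Fin k → ℝ), (∀ j, 0 < a j) →
      (∀ g : Fin k → ℕ × ℕ × ℕ, (∀ j, (g j).1 + (g j).2.1 + (g j).2.2 < d j) →
        Continues (LGSp S (leviInd e α b (fun j => vert (z j) (a j) (g j))) ρ)) →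
        (∀ w : Fin k → ℂ, Continues (LGSp S (leviInd e α b w) ρ)) ∧
        ∀ D : Fin k → ℤ, Continues (LW S (leviInd e α b 0) (ρ.mult.filter fun l => leviDeg e l = D)) :=
  ⟨exists_levi_mem k n m α b hα hb,
    fun _ e ρ S _ _ hM z _ ha h => rigidity_levi e hα hb ρ.mult S hM z ha h⟩

end Pool.Agent.Results.MP_eea520_nt.FiniteUnitaryTwists
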