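import Pool.Agent.K7.H58.EP.Final

/-!
# Q1 for the spin representation implies Q1 for all representations, and rigidity in Eisenstein families

Q1 asks for the meromorphic continuation of `L_S(s, π, ρ)` for all `n ≥ 1`, all automorphic `π` on `GSp_{2n}`
and all finite-dimensional representations `ρ` of `GSpin_{2n+1}(ℂ)`.  The theorem has two parts.

* **The spin representation suffices.**  Let `𝒩` be any infinite set of integers.  If the spin L-functions
  `L_S(s, π, r)`, `r` of degree `2^n`, continue for all `n ∈ 𝒩` and all automorphic `π` on `GSp_{2n}`, then
  `L_S(s, π, ρ)` continues for all `n ≥ 1`, all `π` and all `ρ`; and, more generally, so do the L-functions of the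
  groups `GL_{n₁} × ⋯ × GL_{n_k} × GSp_{2m}` for all representations `τ₁ ⊗ ⋯ ⊗ τ_k ⊗ ρ` of their dual groups.  So
  Q1 is equivalent to its special case `ρ = r`, `n ∈ 𝒩`, and to the continuation of all Langlands L-functions of
  these products (in particular of all automorphic representations of all `GL_n` over `ℚ`).
* **Rigidity (unconditional).**  Let `σ` be automorphic on `GL_n`, `π` on `GSp_{2m}`, and let `ρ` be a
  representation of `GSpin_{2(n+m)+1}(ℂ)` whose weights have degrees in an interval of `d` integers for the centre
  of `GL_n(ℂ)` (`d = n + 1` for `ρ = r`).  If `L_S(s, Ind(σ |det|^w ⊗ π), ρ)` continues for `d` values of `w` with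
  different real parts, then it continues for all `w ∈ ℂ`, and so do the L-functions of `σ × π` for the parts of
  `ρ` of fixed degree.  So the `w` for which Q1 holds for `ρ` and this family are either all complex numbers, or lie
  on at most `d - 1` vertical lines.

Automorphic representations enter through the families of their Satake classes.  A structure
`AutomorphicSystem` consists of sets of families for the groups `GL_n` and `GSp_{2n}` with the closure properties
known for the automorphic representations over `ℚ`: growth, twists by `|det|^w`, central characters, parabolic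
induction (Langlands), the transfer from `GSp_{2n}` to `GL_{2n+1}` (Arthur; Cai, Friedberg and Kaplan).  The
definitions are in `Pool.Agent.K7.H58.EP.Defs`.

Proof.  The families of virtual finite sets of numbers form a ring; those of polynomial growth whose Euler product
continues form an additive subgroup `Good`, stable under the twists `T^w`.  If `(T^w - T^z) x` is good and
`Re w ≠ Re z` then `x` is good, because `x - T^δ x` good, `Re δ > 0`, moves the abscissa of meromorphy to the left
by `Re δ` again and again.  By divided differences `∑ x_j T^{jw}` good for `d` values of `w` with different real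
parts implies that the `x_j` are good.  Applied to the spin L-functions of representations induced from
`σ₁ |det|^{w₁} ⊗ ⋯ ⊗ σ_k |det|^{w_k} ⊗ π` this gives the continuation of
`L(s, Λ^{j₁} σ₁ ⊗ ⋯ ⊗ Λ^{j_k} σ_k ⊗ r(π))`; with the standard transfers of `π` for the `σ_i`, and with `GSp_0 = GL_1`,
one gets all characters of `GSpin_{2m+1}`, since the invariants of the Weyl group are generated by the exterior
powers of the standard representation, the spin representation and the similitude character (proved here by
leading monomials).
-/

set_option autoImplicit false

namespace Pool.Agent.Results.MP_eea520_nt.SpinSuffices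

open Pool.Agent.K7.H58.EP

/-- **The spin representation suffices, and rigidity in Eisenstein families.** -/
theorem result (A : AutomorphicSystem) :
    (∀ 𝒩 : Set ℕ, 𝒩.Infinite → List.TFAE [SpinContinues A 𝒩, AllContinue A, ProductsContinue A]) ∧
    ∀ n m : ℕ, ∀ α ∈ A.gl n, ∀ b ∈ A.gsp m, ∀ (ρ : GSpinRep (n + m)) (S : Finset Nat.Primes) (d : ℕ) (a : ℤ),
      (∀ l ∈ ρ.mult.support, a ≤ deg (n := n) (m := m) l ∧ deg (n := n) (m := m) l < a + d) →
      ∀ w : Fin d → ℂ, Function.Injective (fun i => (w i).re) →
      (∀ i, Continues (LGSp S (ind α b (w i)) ρ)) →
        (∀ z : ℂ, Continues (LGSp S (ind α b z) ρ)) ∧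
        ∀ j : ℤ, Continues (LW S (ind α b 0) (ρ.mult.filter fun l => deg (n := n) (m := m) l = j)) :=
  ⟨fun _ h𝒩 => tfae h𝒩, fun _ _ _ hα _ hb ρ S _ _ hM _ hw h => rigidity hα hb ρ.mult S hM hw h⟩

end Pool.Agent.Results.MP_eea520_nt.SpinSuffices
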