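import Pool.Agent.K7.H58.VR.FinalU

/-!
# Unitary representations suffice for Q1, and rigidity on vertical lines

Q1 asks for the meromorphic continuation of `L_S(s, π, ρ)` for all automorphic `π` on `GSp_{2n}`, unitary or not.

* **Unitary representations suffice.**  If `L_S(s, π, ρ)` continues for all `n ≥ 1`, all `ρ` and all *unitary*
  `π` on `GSp_{2n}`, then it continues for all automorphic `π`.
* **Unitary representations and the spin representation suffice.**  If the spin L-functions `L_S(s, π, r)` of the
  unitary `π` on `GSp_{2n}` continue for an infinite set of `n`, then Q1 holds: `L_S(s, π, ρ)` continues for all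
  `n ≥ 1`, all automorphic `π` and all `ρ`.
* **Rigidity on vertical lines (unconditional).**  Let `σ` be a representation of `GL_n`, `π` one of `GSp_{2m}`
  and `ρ` a representation of `GSpin_{2(n+m)+1}(ℂ)`.  If `L_S(s, Ind(σ |det|^{a+it} ⊗ π), ρ)` continues for a set
  of real `t` of positive measure, then `L_S(s, Ind(σ |det|^w ⊗ π), ρ)` continues for all complex `w`, and so do
  the L-functions of `σ × π` for the parts of `ρ` of fixed degree for the centre of `GL_n(ℂ)`.

By Langlands every automorphic representation `π` of `GSp_{2n}` is a constituent of a representation induced from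
`σ₁ |det|^{w₁} ⊗ ⋯ ⊗ σ_k |det|^{w_k} ⊗ π₀ |λ|^{w₀}` with `σ_i` and `π₀` unitary and cuspidal, so its Satake
classes lie in the `Hull` of the class of unitary representations.  On the unitary axis the isolation argument of
`MP_eea520_nt.SpinSuffices` (twists with different real parts) is not available: all twists have the same real part.

Proof.  Let `f` be the Euler product of a family `x` and suppose that `f(s)/f(s+it)` has a continuation `h_t` for
all real `t`.  (The case of a sum `∑ x_j T^{j(a+it)}`, `t` in a set `T` of positive measure, is reduced to this and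
to small `t` by differences along the patterns `v + ∑_{k ∈ S} h_k ∈ T`, which exist by density.)  Suppose that
`f` is meromorphic in `Re s > c`.  The zeros and poles of `f` in this half-plane do not accumulate at a point of
the line `Re s = c`: otherwise the relation `f(s) = h_t(s) f(s+it)` moves them to uncountably many places.  Near
`c` the logarithmic derivative `u` of `f` is then analytic in `Re s > c` and `u(s) - u(s+it)` is meromorphic at
`c`.  By Baire's theorem there are a disc which crosses the line, with centre `q` in the half-plane, and an
interval of `t` for which the Taylor coefficients of `u(s) - u(s+it)` at `q` have a common bound; averaging over the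
interval bounds those of `u`.  So `f` continues to the disc, and with the relation to the discs above and below it:
the abscissa of meromorphy moves to the left, and it has no finite infimum.
-/

set_option autoImplicit false

namespace Pool.Agent.Results.MP_eea520_nt.UnitarySuffices

open MeasureTheory
open Pool.Agent.K7.H58.EP Pool.Agent.K7.H58.VR

/-- **Unitary representations suffice, and rigidity on vertical lines.** -/
theorem result :
    (∀ A : UnitaryClass,
      (∀ n : ℕ, 1 ≤ n → ∀ b ∈ A.gsp n, ∀ ρ : GSpinRep n, ∃ S : Finset Nat.Primes, Continues (LGSp S b ρ)) →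
      ∀ n : ℕ, 1 ≤ n → ∀ b : GSpData n, Hull A n b → ∀ (ρ : GSpinRep n) (S : Finset Nat.Primes),
        Continues (LGSp S b ρ)) ∧
    (∀ (A : UnitarySystem) (𝒩 : Set ℕ), 𝒩.Infinite →
      (∀ n ∈ 𝒩, 1 ≤ n → ∀ b ∈ A.gsp n, ∃ S : Finset Nat.Primes, Continues (LGSp S b (spin n))) →
      ∀ n : ℕ, 1 ≤ n → ∀ b : GSpData n, Hull A.toUnitaryClass n b → ∀ (ρ : GSpinRep n) (S : Finset Nat.Primes),
        Continues (LGSp S b ρ)) ∧
    (∀ (n m : ℕ) (α : GLData n) (b : GSpData m), GrowthGL α → GrowthGSp b → ∀ (ρ : GSpinRep (n + m)) (a : ℝ)
      (T : Set ℝ), MeasurableSet T → 0 < volume T →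
      (∀ t ∈ T, ∃ S : Finset Nat.Primes, Continues (LGSp S (ind α b (a + t * Complex.I)) ρ)) →
      ∀ S : Finset Nat.Primes, (∀ z : ℂ, Continues (LGSp S (ind α b z) ρ)) ∧
        ∀ j : ℤ, Continues (LW S (ind α b 0) (ρ.mult.filter fun l => deg (n := n) (m := m) l = j))) :=
  ⟨fun _ h => class_suffices h, fun _ _ h𝒩 h => spin_suffices h𝒩 h,
    fun _ _ _ _ hα hb ρ _ _ hT hT0 h S => rigidity_vertical' hα hb ρ hT hT0 h S⟩

end Pool.Agent.Results.MP_eea520_nt.UnitarySuffices
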